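import Mathlib

namespace Pool.Agent.H.MP_eab232_al

open Relation List

section
variable {α : Type} (μ : α → α → Option α)

inductive St : List α → List α → Prop
  | head {a b c : α} (q : List α) : μ a b = some c → St (a :: b :: q) (c :: q)
  | tail (x : α) {u v : List α} : St u v → St (x :: u) (x :: v)

variable {μ}

theorem St.left {u v : List α} (h : St μ u v) (p : List α) : St μ (p ++ u) (p ++ v) := by
  induction p with
  | nil => exact h
  | cons x p ih => exact ih.tail x

theorem St.right {u v : List α} (h : St μ u v) (p : List α) : St μ (u ++ p) (v ++ p) := by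
  induction h with
  | head q h => exact .head _ h
  | tail x _ ih => exact ih.tail x

theorem st_iff {u v : List α} : St μ u v ↔
    ∃ p q a b c, μ a b = some c ∧ u = p ++ a :: b :: q ∧ v = p ++ c :: q := by
  constructor
  · intro h
    induction h with
    | head q h => exact ⟨[], q, _, _, _, h, rfl, rfl⟩
    | tail x _ ih =>
      obtain ⟨p, q, a, b, c, h, rfl, rfl⟩ := ih
      exact ⟨x :: p, q, a, b, c, h, rfl, rfl⟩
  · rintro ⟨p, q, a, b, c, h, rfl, rfl⟩
    exact (St.head q h).left p

abbrev Red (μ : α → α → Option α) := ReflTransGen (St μ)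

theorem Red.left {u v : List α} (h : Red μ u v) (p : List α) : Red μ (p ++ u) (p ++ v) := by
  induction h with
  | refl => exact .refl
  | tail _ h ih => exact ih.tail (h.left p)

theorem Red.right {u v : List α} (h : Red μ u v) (p : List α) : Red μ (u ++ p) (v ++ p) := by
  induction h with
  | refl => exact .refl
  | tail _ h ih => exact ih.tail (h.right p)

def Assoc (μ : α → α → Option α) : Prop :=
  ∀ a b c d e, μ a b = some d → μ b c = some e → ∃ z, μ d c = some z ∧ μ a e = some z

theorem diamond (H : Assoc μ) {u v : List α} (h : St μ u v) :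
    ∀ {w}, St μ u w → ∃ d, ReflGen (St μ) v d ∧ ReflGen (St μ) w d := by
  induction h with
  | head q h =>
    intro w hw
    cases hw with
    | head _ h' => rw [h] at h'; cases h'; exact ⟨_, .refl, .refl⟩
    | tail _ hw =>
      cases hw with
      | head q' h' =>
        obtain ⟨z, h1, h2⟩ := H _ _ _ _ _ h h'
        exact ⟨_, .single (.head _ h1), .single (.head _ h2)⟩
      | tail _ hw => exact ⟨_, .single (hw.tail _), .single (.head _ h)⟩
  | tail x h ih =>
    intro w hw
    cases hw with
    | head q h' =>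
      cases h with
      | head q' h =>
        obtain ⟨z, h1, h2⟩ := H _ _ _ _ _ h' h
        exact ⟨_, .single (.head _ h2), .single (.head _ h1)⟩
      | tail _ h => exact ⟨_, .single (.head _ h'), .single (h.tail _)⟩
    | tail _ hw =>
      obtain ⟨d, h1, h2⟩ := ih hw
      refine ⟨x :: d, ?_, ?_⟩
      · cases h1 with
        | refl => exact .refl
        | single h1 => exact .single (h1.tail x)
      · cases h2 with
        | refl => exact .refl
        | single h2 => exact .single (h2.tail x)

theorem strong (H : Assoc μ) (u v w : List α) (h : St μ u v) (h' : St μ u w) :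
    ∃ d, ReflGen (St μ) v d ∧ Red μ w d :=
  let ⟨d, h1, h2⟩ := diamond H h h'
  ⟨d, h1, h2.to_reflTransGen⟩

theorem St.map {β : Type} {ν : β → β → Option β} (f : α → β)
    (hf : ∀ a b c, μ a b = some c → ν (f a) (f b) = some (f c)) {u v : List α} (h : St μ u v) :
    St ν (u.map f) (v.map f) := by
  induction h with
  | head q h => exact .head _ (hf _ _ _ h)
  | tail x _ ih => exact ih.tail _

theorem uniq (P : α → Prop) {x y : α} (hy : P y) {q l₂ : List α} (h2 : ∀ z ∈ l₂, ¬ P z) :
    ∀ {p l₁ : List α}, (∀ z ∈ l₁, ¬ P z) → P x → p ++ y :: q = l₁ ++ x :: l₂ →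
      p = l₁ ∧ y = x ∧ q = l₂ := by
  intro p
  induction p with
  | nil =>
    rintro (_ | ⟨a, l₁⟩) h1 _ h
    · simpa using h
    · simp only [nil_append, cons_append, cons.injEq] at h
      exact (h1 a (by simp) (h.1 ▸ hy)).elim
  | cons b p ih =>
    rintro (_ | ⟨a, l₁⟩) h1 hx h
    · simp only [nil_append, cons_append, cons.injEq] at h
      exact (h2 y (by rw [← h.2]; simp) hy).elim
    · simp only [cons_append, cons.injEq] at h
      obtain ⟨h3, h4⟩ := ih (fun z hz => h1 z (by simp [hz])) hx h.2
      exact ⟨by rw [h.1, h3], h4⟩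

end

inductive Lt (I C : Type) (L : ℕ)
  | i (a : I) | c (a : C) | X | Y | z
  | Xs (w : {w : List C // w.length ≤ L}) | Ys (w : {w : List C // w.length ≤ L})

open Lt

variable {I C : Type} {L : ℕ} (h g : I → List C) (hh : ∀ a, (h a).length ≤ L)
  (hg : ∀ a, (g a).length ≤ L)

instance [Finite I] [Finite C] : Finite (Lt I C L) := by
  have : Finite {w : List C // w.length ≤ L} := (List.finite_length_le C L).to_subtype
  refine Finite.of_surjective (fun x : I ⊕ C ⊕ Option Bool ⊕ {w : List C // w.length ≤ L} ⊕
    {w : List C // w.length ≤ L} => match x with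
      | .inl a => i a
      | .inr (.inl a) => c a
      | .inr (.inr (.inl none)) => z
      | .inr (.inr (.inl (some true))) => X
      | .inr (.inr (.inl (some false))) => Y
      | .inr (.inr (.inr (.inl w))) => Xs w
      | .inr (.inr (.inr (.inr w))) => Ys w) fun x => ?_
  cases x with
  | i a => exact ⟨.inl a, rfl⟩
  | c a => exact ⟨.inr (.inl a), rfl⟩
  | z => exact ⟨.inr (.inr (.inl none)), rfl⟩
  | X => exact ⟨.inr (.inr (.inl (some true))), rfl⟩
  | Y => exact ⟨.inr (.inr (.inl (some false))), rfl⟩
  | Xs w => exact ⟨.inr (.inr (.inr (.inl w))), rfl⟩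
  | Ys w => exact ⟨.inr (.inr (.inr (.inr w))), rfl⟩

inductive M : Lt I C L → Lt I C L → Lt I C L → Prop
  | iX (a) : M (i a) X (Xs ⟨h a, hh a⟩)
  | iXs (a p) : M (i a) (Xs ⟨[], p⟩) (Xs ⟨h a, hh a⟩)
  | Xc (a w p p') : M (Xs ⟨a :: w, p⟩) (c a) (Xs ⟨w, p'⟩)
  | Yi (a) : M Y (i a) (Ys ⟨(g a).reverse, by simpa using hg a⟩)
  | Ysi (a p) : M (Ys ⟨[], p⟩) (i a) (Ys ⟨(g a).reverse, by simpa using hg a⟩)
  | cY (a w p p') : M (c a) (Ys ⟨a :: w, p⟩) (Ys ⟨w, p'⟩)
  | XY (w w') : M (Xs w) (Ys w') z
  | YX : M Y X z
  | YXs (w) : M Y (Xs w) z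
  | YsX (w) : M (Ys w) X z
  | YsXs (w w') : M (Ys w) (Xs w') z
  | zl (a) : M z a z
  | zr (a) : M a z z

theorem M.fn {a b d e : Lt I C L} (h1 : M h g hh hg a b d) (h2 : M h g hh hg a b e) : d = e := by
  cases h1 <;> cases h2 <;> rfl

open Classical in
noncomputable def mu (a b : Lt I C L) : Option (Lt I C L) :=
  if H : ∃ d, M h g hh hg a b d then some H.choose else none

theorem mu_iff {a b d : Lt I C L} : mu h g hh hg a b = some d ↔ M h g hh hg a b d := by
  unfold mu
  split_ifs with H
  · exact ⟨fun e => Option.some.inj e ▸ H.choose_spec, fun e => congrArg _ (M.fn h g hh hg H.choose_spec e)⟩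
  · simpa using fun e => H ⟨d, e⟩

theorem assoc : Assoc (mu h g hh hg) := by
  intro a b c d e h1 h2
  simp only [mu_iff] at *
  refine ⟨z, ?_⟩
  cases h1 <;> cases h2 <;> constructor <;> constructor

def e0 : {w : List C // w.length ≤ L} := ⟨[], Nat.zero_le _⟩

def sp : Lt I C L → Prop
  | Xs _ => True
  | Ys _ => True
  | z => True
  | _ => False

theorem M.sp {a b d : Lt I C L} (h1 : M h g hh hg a b d) : sp d := by
  cases h1 <;> trivial

theorem ancA {u : List (Lt I C L)} (H : Red (mu h g hh hg) u [Xs e0, Y]) :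
    ∃ W : List I, u = W.reverse.map i ++ X :: ((W.flatMap h).map c ++ [Y]) ∨
      ∃ w, u = W.reverse.map i ++ Xs w :: ((w.1 ++ W.flatMap h).map c ++ [Y]) := by
  induction H using ReflTransGen.head_induction_on with
  | refl => exact ⟨[], Or.inr ⟨e0, rfl⟩⟩
  | head s _ ih =>
    obtain ⟨p, q, a, b, d, hm, rfl, rfl⟩ := st_iff.1 s
    rw [mu_iff] at hm
    have hd := hm.sp
    obtain ⟨W, H | ⟨w, H⟩⟩ := ih
    · exfalso
      have : d ∈ W.reverse.map i ++ X :: ((W.flatMap h).map c ++ [Y]) := by rw [← H]; simp
      simp only [mem_append, mem_map, mem_cons, not_mem_nil, or_false] at this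
      rcases this with ⟨_, _, rfl⟩ | rfl | ⟨_, _, rfl⟩ | rfl <;> exact hd
    · obtain ⟨rfl, rfl, rfl⟩ := uniq (x := _) sp hd (by
        simp only [mem_append, mem_map, mem_cons, not_mem_nil, or_false]
        rintro _ (⟨_, _, rfl⟩ | rfl) <;> exact id) (by
        simp only [mem_map]
        rintro _ ⟨_, _, rfl⟩; exact id) (by trivial) H
      cases hm with
      | iX a => exact ⟨a :: W, Or.inl (by simp)⟩
      | iXs a p => exact ⟨a :: W, Or.inr ⟨⟨[], p⟩, by simp⟩⟩
      | Xc a w p p' => exact ⟨W, Or.inr ⟨⟨a :: w, p⟩, by simp⟩⟩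

theorem ancB (s : List C) {u : List (Lt I C L)}
    (H : Red (mu h g hh hg) u (X :: s.map c ++ [Ys e0])) :
    ∃ W : List I, u = X :: (s ++ W.flatMap g).map c ++ Y :: W.reverse.map i ∨
      ∃ w, u = X :: (s ++ W.flatMap g ++ w.1.reverse).map c ++ Ys w :: W.reverse.map i := by
  induction H using ReflTransGen.head_induction_on with
  | refl => exact ⟨[], Or.inr ⟨e0, by simp [e0]⟩⟩
  | head s _ ih =>
    obtain ⟨p, q, a, b, d, hm, rfl, rfl⟩ := st_iff.1 s
    rw [mu_iff] at hm
    have hd := hm.sp
    obtain ⟨W, H | ⟨w, H⟩⟩ := ih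
    · exfalso
      have : d ∈ p ++ d :: q := by simp
      rw [H] at this
      simp only [mem_append, mem_map, mem_cons] at this
      rcases this with (rfl | ⟨_, _, rfl⟩) | rfl | ⟨_, _, rfl⟩ <;> exact hd
    · obtain ⟨rfl, rfl, rfl⟩ := uniq (x := _) sp hd (by
        simp only [mem_map]
        rintro _ ⟨_, _, rfl⟩; exact id) (by
        simp only [mem_map, mem_cons]
        rintro _ (rfl | ⟨_, _, rfl⟩) <;> exact id) (by trivial) H
      cases hm with
      | Yi a => exact ⟨W ++ [a], Or.inl (by simp)⟩
      | Ysi a p => exact ⟨W ++ [a], Or.inr ⟨⟨[], p⟩, by simp⟩⟩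
      | cY a w p p' => exact ⟨W, Or.inr ⟨⟨a :: w, p⟩, by simp⟩⟩

theorem eatX (w : List C) (p : w.length ≤ L) :
    Red (mu h g hh hg) (Xs ⟨w, p⟩ :: w.map c) [Xs e0] := by
  induction w with
  | nil => exact .refl
  | cons a w ih =>
    exact .head (.head _ ((mu_iff ..).2 (.Xc a w p (by simp at p; omega)))) (ih _)

theorem eatY (w : List C) (p : w.length ≤ L) :
    Red (mu h g hh hg) (w.reverse.map c ++ [Ys ⟨w, p⟩]) [Ys e0] := by
  induction w with
  | nil => exact .refl
  | cons a w ih =>
    refine .head ?_ (ih (by simp at p; omega))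
    simpa using (St.head [] ((mu_iff ..).2 (M.cY (h := h) (g := g) (hh := hh) (hg := hg) a w p
      (by simp at p; omega)))).left (w.reverse.map c)

theorem redA (W : List I) :
    Red (mu h g hh hg) (W.reverse.map i ++ Xs e0 :: (W.flatMap h).map c) [Xs e0] := by
  induction W with
  | nil => exact .refl
  | cons a W ih =>
    refine .trans ?_ ih
    have h1 : Red (mu h g hh hg) (i a :: Xs e0 :: (h a).map c) [Xs e0] :=
      .head (.head _ ((mu_iff ..).2 (.iXs a _))) (eatX h g hh hg _ _)
    simpa using (h1.left (W.reverse.map i)).right ((W.flatMap h).map c)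

theorem redB (r : List I) :
    Red (mu h g hh hg) ((r.reverse.flatMap g).map c ++ Ys e0 :: r.map i) [Ys e0] := by
  induction r with
  | nil => exact .refl
  | cons a r ih =>
    refine .trans ?_ ih
    have h1 : Red (mu h g hh hg) ((g a).map c ++ [Ys e0, i a]) [Ys e0] :=
      .head ((St.head [] ((mu_iff ..).2 (.Ysi a _))).left _)
        (by simpa using eatY h g hh hg (g a).reverse (by simpa using hg a))
    simpa using (h1.left ((r.reverse.flatMap g).map c)).right (r.map i)

theorem conj_iff (s : List C) (hs : s ≠ []) :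
    (∃ u v, Red (mu h g hh hg) (u ++ v) [Xs e0, Y] ∧
      Red (mu h g hh hg) (v ++ u) (X :: s.map c ++ [Ys e0])) ↔
    ∃ W : List I, W.flatMap h = s ++ W.flatMap g := by
  constructor
  · rintro ⟨u, v, h1, h2⟩
    have hp : ∀ x, x ∈ u ++ v ↔ x ∈ v ++ u := fun x => by simp [or_comm]
    obtain ⟨W, H | ⟨w, H⟩⟩ := ancA h g hh hg h1 <;>
      obtain ⟨W', H' | ⟨w', H'⟩⟩ := ancB h g hh hg s h2
    · have key : (X :: (W.flatMap h).map c) ++ Y :: W.reverse.map i =
          (X :: (s ++ W'.flatMap g).map c) ++ Y :: W'.reverse.map (i (C := C) (L := L)) := by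
        rw [← H']
        rcases v with _ | ⟨x, v⟩
        · rw [append_nil] at H
          rw [nil_append, H] at H'
          obtain ⟨h3, -, -⟩ := uniq (· = X) (p := _) (l₁ := []) rfl
            (fun _ hz e => by subst e; simp at hz) (by simp) rfl H'
          rw [nil_append, H, h3]
          simp
        · obtain rfl : x = X := by simpa using congrArg head? H'
          obtain ⟨rfl, -, rfl⟩ := uniq (· = X) rfl (fun _ hz e => by subst e; simp at hz)
            (by simp) rfl H
          simp
      obtain ⟨h3, -, h4⟩ := uniq (· = Y) rfl (by simp)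
        (fun _ hz e => by subst e; simp at hz) rfl key
      obtain rfl : W = W' :=
        reverse_injective (map_injective_iff.2 (fun _ _ e => Lt.i.inj e) h4)
      exact ⟨W, map_injective_iff.2 (fun _ _ e => Lt.c.inj e) (cons.inj h3).2⟩
    · have := (hp Y).1 (by rw [H]; simp)
      rw [H'] at this
      simp at this
    · have := (hp X).2 (by rw [H']; simp)
      rw [H] at this
      simp at this
    · have := (hp X).2 (by rw [H']; simp)
      rw [H] at this
      simp at this
  · rintro ⟨_ | ⟨a, W⟩, H⟩
    · exact (hs (by simpa using H.symm)).elim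
    · refine ⟨(a :: W).reverse.map i, X :: (((a :: W).flatMap h).map c ++ [Y]), ?_, ?_⟩
      · have h1 : Red (mu h g hh hg) (i a :: X :: (h a).map c) [Xs e0] :=
          .head (.head _ ((mu_iff ..).2 (.iX a))) (eatX h g hh hg _ _)
        have h2 := ((h1.left (W.reverse.map i)).right ((W.flatMap h).map c)).trans
          (by simpa using redA h g hh hg W)
        simpa using Red.right h2 [Y]
      · rw [H]
        obtain ⟨b, r, hr⟩ : ∃ b r, a :: W = (b :: r).reverse := by
          rcases hb : (a :: W).reverse with _ | ⟨b, r⟩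
          · simp at hb
          · exact ⟨b, r, by rw [← hb, reverse_reverse]⟩
        rw [hr]
        have h1 : Red (mu h g hh hg) ((g b).map c ++ [Y, i b]) [Ys e0] :=
          .head ((St.head [] ((mu_iff ..).2 (.Yi b))).left _)
            (by simpa using eatY h g hh hg (g b).reverse (by simpa using hg b))
        have h2 := ((h1.left ((r.reverse.flatMap g).map c)).right (r.map i)).trans
          (by simpa using redB h g hh hg r)
        simpa using Red.left h2 (X :: s.map c)

theorem irrA (v) : ¬ St (mu h g hh hg) [Xs e0, Y] v := by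
  intro H
  cases H with
  | head _ H => rw [mu_iff] at H; cases H
  | tail _ H =>
    cases H with
    | tail _ H => cases H

theorem irrB (s : List C) (v) : ¬ St (mu h g hh hg) (X :: s.map c ++ [Ys e0]) v := by
  have : ∀ (s : List C) v, ¬ St (mu h g hh hg) (s.map c ++ [Ys e0]) v := by
    intro s
    induction s with
    | nil =>
      intro v H
      cases H with
      | tail _ H => cases H
    | cons a s ih =>
      intro v H
      rcases s with _ | ⟨b, s⟩
      · cases H with
        | head _ H => rw [mu_iff] at H; cases H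
        | tail _ H => exact ih _ H
      · cases H with
        | head _ H => rw [mu_iff] at H; cases H
        | tail _ H => exact ih _ H
  intro H
  rcases s with _ | ⟨b, s⟩
  · cases H with
    | head _ H => rw [mu_iff] at H; cases H
    | tail _ H => exact this [] _ H
  · cases H with
    | head _ H => rw [mu_iff] at H; cases H
    | tail _ H => exact this (b :: s) _ H

end Pool.Agent.H.MP_eab232_al
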