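import Mathlib
import Pool.Agent.H.MP_d7c5de_lc.PCP

namespace Pool.Agent.H.MP_eab232_al

open List Pool.Agent.Lib.helper21.Queue Pool.Agent.H.MP_d7c5de_lc B A

variable {Q S : Type} (δ : Q → S → Option Q × List S) (q₀ : Q) (t₀ : List S)

theorem fwd (hI : ∀ c, Reach δ (some q₀, t₀) c → (∃ q x t, c = (some q, x :: t)) ∨ c = (none, []))
    (u : List (A Q S Unit)) : ∀ w, Good δ q₀ t₀ w → w ≠ [] →
      u.flatMap hh = w ++ u.flatMap (gg δ q₀ []) → Reach δ (some q₀, t₀) (none, []) := by
  induction u with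
  | nil => intro w _ hw h; exact (hw (by simpa using h.symm)).elim
  | cons a u ih =>
    intro w hg hw h
    simp only [flatMap_cons] at h
    have e : gg δ q₀ [] a = gg δ q₀ t₀ a := by
      cases a with
      | start =>
        rcases hg with rfl | ⟨_ | ⟨x, t₂⟩, o, t₁, -, rfl⟩
        · exact (hw rfl).elim
        · simp [hh, W, L] at h
        · simp [hh, W, L] at h
      | stop j => rfl
      | copy x => rfl
      | rule q x => rfl
    rw [e, ← append_assoc] at h
    obtain ⟨⟨w', h1, h2, h3⟩, -⟩ := key δ q₀ t₀ hI hg a (Cmp.left (Or.inl ⟨[], (append_nil _).trans h⟩))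
    by_cases hw' : w' = []
    · exact h3 hw'
    · rw [h2, append_assoc] at h
      exact ih w' h1 hw' (append_cancel_left h)

theorem bwd {c} (h : Reach δ (some q₀, t₀) c) : ∃ u : List (A Q S Unit),
    W [] (some q₀) t₀ ++ u.flatMap (gg δ q₀ []) = u.flatMap hh ++ W [] c.1 c.2 := by
  have rot : ∀ (t₂ : List S) o t₁ (u : List (A Q S Unit)),
      W [] (some q₀) t₀ ++ u.flatMap (gg δ q₀ []) = u.flatMap hh ++ W t₂ o t₁ →
      ∃ u : List (A Q S Unit),
        W [] (some q₀) t₀ ++ u.flatMap (gg δ q₀ []) = u.flatMap hh ++ W [] o (t₁ ++ t₂) := by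
    intro t₂
    induction t₂ with
    | nil => intro o t₁ u h; exact ⟨u, by simpa using h⟩
    | cons x t₂ ih =>
      intro o t₁ u h
      have := ih o (t₁ ++ [x]) (u ++ [copy x]) (by
        simp only [flatMap_append, flatMap_singleton]
        rw [← append_assoc, h, append_assoc, e_copy, append_assoc])
      simpa using this
  induction h with
  | refl => exact ⟨[], by simp⟩
  | @tail b c _ e ih =>
    obtain ⟨u, hu⟩ := ih
    rcases b with ⟨_ | q, _ | ⟨x, t⟩⟩ <;> cases e
    exact rot _ _ [] (u ++ [rule q x]) (by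
      simp only [flatMap_append, flatMap_singleton]
      rw [← append_assoc, hu, append_assoc, e_rule, append_assoc]; rfl)

theorem pcp : ∃ (I C : Type) (_ : Finite I) (_ : Finite C) (h g : I → List C) (x m y : List C),
    x ≠ [] ∧ ¬ ComputablePred fun n : ℕ =>
      ∃ u : List I, u.flatMap h = x ++ (replicate n m).flatten ++ y ++ u.flatMap g := by
  obtain ⟨Q, S, _, _, δ, q₀, a, e, h1, h2⟩ := exists_qa
  refine ⟨A Q S Unit, B Q S, inferInstance, inferInstance, hh, gg δ q₀ [], [star, hd (some q₀)], [star, sym a],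
    [star, sym e, star], by simp, fun H => h2 ?_⟩
  have e1 : ∀ n, [star, hd (some q₀)] ++ (replicate n [star, sym a]).flatten ++ [star, sym e, star] =
      W [] (some q₀) (replicate n a ++ [e]) := by
    intro n
    simp [W, L, flatMap_def]
  refine H.of_eq fun n => ?_
  rw [e1]
  constructor
  · rintro ⟨u, hu⟩
    exact fwd δ q₀ _ (h1 n) u _ (Or.inr ⟨[], _, _, by simpa using .refl, rfl⟩) (by simp [W]) hu
  · intro h
    obtain ⟨u, hu⟩ := bwd δ q₀ _ h
    refine ⟨u ++ [stop ()], ?_⟩
    simp only [flatMap_append, flatMap_singleton]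
    rw [← append_assoc, hu, append_assoc, e_stop]

end Pool.Agent.H.MP_eab232_al
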